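import Pool.Agent.Helper97_SE.Final

/-!
# Balancing sets of weights
-/

namespace Pool.Agent.Helper97_SE

open Finset

variable {ι : Type} [DecidableEq ι]

/-- glue sign vectors -/
def glue (A : Finset ι) (σ τ : ι → ℤ) : ι → ℤ := fun i => if i ∈ A then σ i else τ i

theorem glue_sign {A : Finset ι} {σ τ : ι → ℤ} (hσ : ∀ i, σ i = 1 ∨ σ i = -1)
    (hτ : ∀ i, τ i = 1 ∨ τ i = -1) (i : ι) : glue A σ τ i = 1 ∨ glue A σ τ i = -1 := by
  unfold glue
  split_ifs
  · exact hσ i
  · exact hτ i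

theorem sum_glue {A P : Finset ι} (hA : A ⊆ P) (σ τ : ι → ℤ) (w : ι → ℤ) :
    ∑ i ∈ P, glue A σ τ i * w i = ∑ i ∈ A, σ i * w i + ∑ i ∈ P \ A, τ i * w i := by
  rw [← sum_sdiff hA, add_comm]
  congr 1
  · exact sum_congr rfl fun i hi => by simp [glue, hi]
  · exact sum_congr rfl fun i hi => by simp [glue, (mem_sdiff.1 hi).2]

/-- an even number of weights between `lo` and `hi` -/
theorem bal_even {w : ι → ℤ} {lo hi : ℤ} (hlh : lo ≤ hi) :
    ∀ (n : ℕ) (P : Finset ι), P.card = 2 * n → (∀ i ∈ P, lo ≤ w i ∧ w i ≤ hi) →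
      ∃ σ : ι → ℤ, (∀ i, σ i = 1 ∨ σ i = -1) ∧ |∑ i ∈ P, σ i * w i| ≤ hi - lo := by
  intro n
  induction n with
  | zero =>
    intro P hP _
    have : P = ∅ := card_eq_zero.1 (by simpa using hP)
    subst this
    exact ⟨fun _ => 1, fun _ => Or.inl rfl, by simpa using hlh⟩
  | succ n ih =>
    intro P hP hw
    obtain ⟨i, hi⟩ : P.Nonempty := by rw [← card_pos]; omega
    obtain ⟨j, hj⟩ : (P.erase i).Nonempty := by
      rw [← card_pos, card_erase_of_mem hi]; omega
    have hji := ne_of_mem_erase hj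
    obtain ⟨σ, hσ, hs⟩ := ih ((P.erase i).erase j)
      (by rw [card_erase_of_mem hj, card_erase_of_mem hi]; omega)
      (fun k hk => hw k (mem_of_mem_erase (mem_of_mem_erase hk)))
    have hwi := hw i hi
    have hwj := hw j (mem_of_mem_erase hj)
    have hsum : ∀ ε : ℤ, ∑ k ∈ P, (fun k => if k = i then ε else if k = j then -ε else σ k) k * w k
        = ε * (w i - w j) + ∑ k ∈ (P.erase i).erase j, σ k * w k := by
      intro ε
      rw [← add_sum_erase _ _ hi, ← add_sum_erase _ _ hj]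
      have e : ∑ k ∈ (P.erase i).erase j,
          (fun k => if k = i then ε else if k = j then -ε else σ k) k * w k =
          ∑ k ∈ (P.erase i).erase j, σ k * w k := by
        refine sum_congr rfl fun k hk => ?_
        have h1 : k ≠ j := ne_of_mem_erase hk
        have h2 : k ≠ i := ne_of_mem_erase (mem_of_mem_erase hk)
        simp [h1, h2]
      rw [e]
      simp only [if_true, hji, if_false]
      ring
    have hsg : ∀ ε : ℤ, (ε = 1 ∨ ε = -1) → ∀ k,
        (fun k => if k = i then ε else if k = j then -ε else σ k) k = 1 ∨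
        (fun k => if k = i then ε else if k = j then -ε else σ k) k = -1 := by
      intro ε hε k
      simp only
      split_ifs
      · exact hε
      · rcases hε with h | h <;> simp [h]
      · exact hσ k
    rw [abs_le] at hs
    by_cases hc : 0 ≤ (w i - w j) * ∑ k ∈ (P.erase i).erase j, σ k * w k
    · refine ⟨_, hsg (-1) (Or.inr rfl), ?_⟩
      rw [hsum, abs_le]
      rcases mul_nonneg_iff.1 hc with ⟨h1, h2⟩ | ⟨h1, h2⟩ <;> constructor <;> linarith
    · refine ⟨_, hsg 1 (Or.inl rfl), ?_⟩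
      rw [hsum, abs_le]
      push Not at hc
      rcases mul_neg_iff.1 hc with ⟨h1, h2⟩ | ⟨h1, h2⟩ <;> constructor <;> linarith

/-- any number of weights between `0` and `hi` -/
theorem bal_any {w : ι → ℤ} {hi : ℤ} (hh : 0 ≤ hi) (P : Finset ι)
    (hw : ∀ i ∈ P, 0 ≤ w i ∧ w i ≤ hi) :
    ∃ σ : ι → ℤ, (∀ i, σ i = 1 ∨ σ i = -1) ∧ |∑ i ∈ P, σ i * w i| ≤ hi := by
  induction P using Finset.induction_on with
  | empty => exact ⟨fun _ => 1, fun _ => Or.inl rfl, by simpa using hh⟩
  | insert i P hi ih =>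
    obtain ⟨σ, hσ, hs⟩ := ih fun k hk => hw k (mem_insert_of_mem hk)
    have hwi := hw i (mem_insert_self _ _)
    have hsum : ∀ ε : ℤ, ∑ k ∈ insert i P, (fun k => if k = i then ε else σ k) k * w k
        = ε * w i + ∑ k ∈ P, σ k * w k := by
      intro ε
      rw [sum_insert hi]
      have e : ∑ k ∈ P, (fun k => if k = i then ε else σ k) k * w k = ∑ k ∈ P, σ k * w k := by
        refine sum_congr rfl fun k hk => ?_
        have h2 : k ≠ i := by rintro rfl; exact hi hk
        simp [h2]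
      rw [e]
      simp
    have hsg : ∀ ε : ℤ, (ε = 1 ∨ ε = -1) → ∀ k,
        (fun k => if k = i then ε else σ k) k = 1 ∨
        (fun k => if k = i then ε else σ k) k = -1 := by
      intro ε hε k
      simp only
      split_ifs
      · exact hε
      · exact hσ k
    rw [abs_le] at hs
    rcases le_total 0 (∑ k ∈ P, σ k * w k) with hc | hc
    · refine ⟨_, hsg (-1) (Or.inr rfl), ?_⟩
      rw [hsum, abs_le]
      constructor <;> linarith
    · refine ⟨_, hsg 1 (Or.inl rfl), ?_⟩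
      rw [hsum, abs_le]
      constructor <;> linarith

variable [Fintype ι]

theorem star_of {M : ι → ℕ} {U : ℕ} (hM : ∀ i, 4 * U + 2 ≤ M i ∧ M i ≤ 5 * U + 2)
    (heven : Even (Fintype.card ι))
    (h6 : 6 ≤ (univ.filter fun i => M i = 4 * U + 2).card)
    (h8 : 8 ≤ (univ.filter fun i => M i = 5 * U + 2).card)
    (h0 : ∃ σ : ι → ℤ, (∀ i, σ i = 1 ∨ σ i = -1) ∧ ∑ i, σ i * ((M i : ℤ) - 2) = 0) :
    Star M := by
  intro J hJ
  have hw : ∀ i, 4 * (U : ℤ) ≤ (M i : ℤ) - 2 ∧ (M i : ℤ) - 2 ≤ 5 * U := by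
    intro i
    have := hM i
    omega
  have hJlo : (J.card : ℤ) * (4 * U + 2) ≤ ∑ i ∈ J, (M i : ℤ) := by
    have := card_nsmul_le_sum J (fun i => (M i : ℤ)) (4 * U + 2) fun i _ => by
      have := hM i
      omega
    simpa using this
  have hcardc : J.card + Jᶜ.card = Fintype.card ι := card_add_card_compl J
  obtain ⟨r, hr⟩ := heven
  rcases Nat.lt_or_ge 0 J.card with hpos | hzero
  swap
  · have hJe : J = ∅ := card_eq_zero.1 (by omega)
    subst hJe
    obtain ⟨σ, hσ, hs⟩ := h0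
    exact ⟨σ, hσ, by simp [hs]⟩
  have hcases : J.card = 1 ∨ J.card = 2 ∨ J.card = 3 := by omega
  rcases hcases with h1 | h2 | h3
  · -- one unsaturated star
    obtain ⟨D4, hD4, hD4c⟩ := exists_subset_card_eq (n := 5)
      (s := (univ.filter fun i => M i = 4 * U + 2) \ J) (by
        have := le_card_sdiff J (univ.filter fun i => M i = 4 * U + 2)
        omega)
    obtain ⟨D5, hD5, hD5c⟩ := exists_subset_card_eq (n := 4)
      (s := (univ.filter fun i => M i = 5 * U + 2) \ J) (by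
        have := le_card_sdiff J (univ.filter fun i => M i = 5 * U + 2)
        omega)
    by_cases hU : U = 0
    · -- degenerate case
      subst hU
      refine ⟨fun _ => 1, fun _ => Or.inl rfl, ?_⟩
      have : ∑ i ∈ Jᶜ, (1 : ℤ) * ((M i : ℤ) - 2) = 0 := by
        refine sum_eq_zero fun i _ => ?_
        have := hw i
        simp only [Nat.cast_zero, mul_zero] at this
        omega
      rw [this]
      simp only [abs_zero, mul_zero]
      positivity
    have hdisj : Disjoint D4 D5 := by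
      rw [disjoint_left]
      intro i h4 h5
      have a := (mem_filter.1 (mem_sdiff.1 (hD4 h4)).1).2
      have b := (mem_filter.1 (mem_sdiff.1 (hD5 h5)).1).2
      omega
    have hD4J : D4 ⊆ Jᶜ := fun i hi => mem_compl.2 (mem_sdiff.1 (hD4 hi)).2
    have hD5J : D5 ⊆ Jᶜ \ D4 := fun i hi => mem_sdiff.2
      ⟨mem_compl.2 (mem_sdiff.1 (hD5 hi)).2, fun h => disjoint_left.1 hdisj h hi⟩
    obtain ⟨σ, hσ, hs⟩ := bal_even (w := fun i => (M i : ℤ) - 2) (lo := 4 * U) (hi := 5 * U)
      (by omega) (r - 5) ((Jᶜ \ D4) \ D5) (by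
        rw [card_sdiff_of_subset hD5J, card_sdiff_of_subset hD4J]
        omega) (fun i _ => hw i)
    refine ⟨glue D4 (fun _ => 1) (glue D5 (fun _ => -1) σ),
      glue_sign (fun _ => Or.inl rfl) (glue_sign (fun _ => Or.inr rfl) hσ), ?_⟩
    rw [sum_glue hD4J, sum_glue hD5J]
    have e4 : ∑ i ∈ D4, (1 : ℤ) * ((M i : ℤ) - 2) = 5 * (4 * U) := by
      rw [sum_congr rfl (g := fun _ => (4 * U : ℤ)) (fun i hi => by
        have a := (mem_filter.1 (mem_sdiff.1 (hD4 hi)).1).2
        rw [a]; push_cast; ring)]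
      simp [hD4c]
    have e5 : ∑ i ∈ D5, (-1 : ℤ) * ((M i : ℤ) - 2) = -(4 * (5 * U)) := by
      rw [sum_congr rfl (g := fun _ => (-(5 * U) : ℤ)) (fun i hi => by
        have a := (mem_filter.1 (mem_sdiff.1 (hD5 hi)).1).2
        rw [a]; push_cast; ring)]
      simp [hD5c]
    rw [e4, e5]
    rw [h1] at hJlo
    have e6 : (5 * (4 * U) + (-(4 * (5 * U)) + ∑ i ∈ (Jᶜ \ D4) \ D5, σ i * ((M i : ℤ) - 2)) : ℤ) =
        ∑ i ∈ (Jᶜ \ D4) \ D5, σ i * ((M i : ℤ) - 2) := by ring
    rw [e6]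
    push_cast at hJlo
    linarith
  · obtain ⟨σ, hσ, hs⟩ := bal_even (w := fun i => (M i : ℤ) - 2) (lo := 4 * U) (hi := 5 * U)
      (by omega) (r - 1) Jᶜ (by omega) (fun i _ => hw i)
    refine ⟨σ, hσ, ?_⟩
    rw [h2] at hJlo
    push_cast at hJlo
    linarith
  · obtain ⟨σ, hσ, hs⟩ := bal_any (w := fun i => (M i : ℤ) - 2) (hi := 5 * U)
      (by omega) Jᶜ (fun i _ => ⟨by have := hw i; omega, (hw i).2⟩)
    refine ⟨σ, hσ, ?_⟩
    rw [h3] at hJlo
    push_cast at hJlo
    linarith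

end Pool.Agent.Helper97_SE
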