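import Mathlib

/-!
# Combinatorial core: some choice of centre colours overloads no colour

`h i b c` is the number of vertices of star `i` that are forced to take the colour `c` once the
centre takes its colour number `b`; `M i` is the number of vertices of star `i`.
-/

namespace Pool.Agent.Helper97_SE

open Finset

variable {ι : Type} [Fintype ι] [DecidableEq ι]

/-- The abstract properties of the forced loads. `T i c c'` says that the list of centre `i` is
`{c, c'}`. -/
structure Loads (M : ι → ℕ) (h : ι → Bool → ℕ → ℕ) (T : ι → ℕ → ℕ → Prop) : Prop where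
  pair : ∀ i b c c', c ≠ c' → h i b c + h i b c' ≤ M i
  triple : ∀ i b c c' c'', c ≠ c' → c ≠ c'' → c' ≠ c'' →
    h i b c + h i b c' + h i b c'' ≤ M i
  swap : ∀ i c, h i true c + h i false c ≤ M i
  cross : ∀ i c c', c ≠ c' → ¬ T i c c' →
    h i true c + h i true c' + (h i false c + h i false c') ≤ M i
  small : ∀ i b c, h i b c + 1 ≤ M i
  sat : ∀ i c c', c ≠ c' → T i c c' → ∃ p b, h i b c = 1 ∧ h i b c' = p ∧
    h i (!b) c = p ∧ h i (!b) c' = 1
  symm : ∀ i c c', T i c c' → T i c' c

/-- flip the choices in `S` -/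
def flipOn (S : Finset ι) (θ : ι → Bool) : ι → Bool := fun i => if i ∈ S then !θ i else θ i

/-- the forced load of colour `c` -/
def F (h : ι → Bool → ℕ → ℕ) (θ : ι → Bool) (c : ℕ) : ℕ := ∑ i, h i (θ i) c

theorem flipOn_insert {S : Finset ι} {s : ι} (hs : s ∉ S) (θ : ι → Bool) :
    flipOn (insert s S) θ = Function.update (flipOn S θ) s (!(flipOn S θ) s) := by
  funext i
  by_cases hi : i = s
  · subst hi; simp [flipOn, hs]
  · simp [flipOn, hi, Function.update_of_ne hi]

variable {M : ι → ℕ} {h : ι → Bool → ℕ → ℕ} {T : ι → ℕ → ℕ → Prop} {Cap : ℕ}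

/-- Two neighbouring states with different overloaded colours. -/
theorem exists_switch (H : Loads M h T) (hN : ∑ i, M i ≤ 2 * Cap)
    (hbad : ∀ θ, ∃ c, Cap < F h θ c) :
    ∃ θ s c₁ c₂, c₁ ≠ c₂ ∧ Cap < F h θ c₁ ∧ Cap < F h (Function.update θ s (!θ s)) c₂ := by
  by_contra hcon
  push Not at hcon
  have hstep : ∀ θ s c, Cap < F h θ c → Cap < F h (Function.update θ s (!θ s)) c := by
    intro θ s c hc
    obtain ⟨c', hc'⟩ := hbad (Function.update θ s (!θ s))
    by_cases hcc : c = c'
    · subst hcc; exact hc'
    · exact absurd hc' (not_lt.2 (hcon θ s c c' hcc hc))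
  have hall : ∀ (S : Finset ι) θ c, Cap < F h θ c → Cap < F h (flipOn S θ) c := by
    intro S
    induction S using Finset.induction_on with
    | empty =>
      intro θ c hc
      have e : flipOn (∅ : Finset ι) θ = θ := by funext i; simp [flipOn]
      rw [e]; exact hc
    | insert s S hs ih =>
      intro θ c hc
      rw [flipOn_insert hs]
      exact hstep _ _ _ (ih θ c hc)
  obtain ⟨c, hc⟩ := hbad fun _ => true
  have h2 := hall univ _ _ hc
  have h3 : F h (fun _ => true) c + F h (flipOn univ fun _ => true) c ≤ ∑ i, M i := by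
    unfold F
    rw [← sum_add_distrib]
    exact sum_le_sum fun i _ => by simpa [flipOn] using H.swap i c
  omega

/-- Flipping few unsaturated stars keeps the overloaded colour. -/
theorem keep (H : Loads M h T) (hN : ∑ i, M i ≤ 2 * Cap)
    (hbad : ∀ θ, ∃ c, Cap < F h θ c) {B : ℕ} (hB : ∀ i, M i ≤ B) (hcap : 5 * B ≤ Cap)
    {θ : ι → Bool} {s : ι} {c₁ c₂ : ℕ} (hc : c₁ ≠ c₂) (hθ : Cap < F h θ c₁)
    {z : ι → ℕ} (hz : ∀ i, i ≠ s → h i (θ i) c₁ + h i (θ i) c₂ + z i = M i)
    (hzB : ∑ i ∈ univ.erase s, z i ≤ B)
    {J : Finset ι} (hJT : ∀ i ∈ J, ¬ T i c₁ c₂) (hsJ : s ∉ J) (hJ3 : J.card = 3) :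
    Cap < F h (flipOn J θ) c₁ := by
  obtain ⟨c, hcov⟩ := hbad (flipOn J θ)
  by_cases h1 : c = c₁
  · subst h1; exact hcov
  exfalso
  by_cases h2 : c = c₂
  · subst h2
    -- colour c₂
    have key : F h (flipOn J θ) c + F h θ c₁ ≤ ∑ i, M i := by
      unfold F
      rw [← sum_add_distrib]
      refine sum_le_sum fun i _ => ?_
      by_cases hi : i ∈ J
      · have his : i ≠ s := fun e => hsJ (e ▸ hi)
        have hz' := hz i his
        have hcr := H.cross i c₁ c hc (hJT i hi)
        simp only [flipOn, hi, if_true]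
        cases hb : θ i <;> simp only [hb, Bool.not_true, Bool.not_false] at hz' ⊢ <;> omega
      · simp only [flipOn, hi, if_false]
        have := H.pair i (θ i) c c₁ h1
        omega
    omega
  · have key : F h (flipOn J θ) c ≤ ∑ i ∈ univ.erase s, z i + (B + 3 * B) := by
      unfold F
      have hsplit : ∀ i, h i (flipOn J θ i) c ≤
          (if i ≠ s then z i else 0) + ((if i = s then B else 0) + (if i ∈ J then B else 0)) := by
        intro i
        by_cases hi : i ∈ J
        · have h3 := H.small i (flipOn J θ i) c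
          have h4 := hB i
          simp only [hi, if_true]
          omega
        · by_cases his : i = s
          · have h3 := H.small i (flipOn J θ i) c
            have h4 := hB i
            simp only [his, if_true]
            subst his
            omega
          · have h3 := H.triple i (θ i) c₁ c₂ c hc (Ne.symm h1) (Ne.symm h2)
            have h4 := hz i his
            simp only [flipOn, hi, his, if_false, ne_eq, not_false_eq_true, if_true]
            omega
      refine (sum_le_sum fun i _ => hsplit i).trans ?_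
      rw [sum_add_distrib, sum_add_distrib]
      have e1 : ∑ i, (if i ≠ s then z i else 0) = ∑ i ∈ univ.erase s, z i := by
        rw [← sum_filter]
        congr 1
        ext i
        simp
      have e2 : ∑ i, (if i = s then B else 0) = B := by simp
      have e3 : ∑ i, (if i ∈ J then B else 0) = 3 * B := by
        rw [← sum_filter]
        simp [hJ3]
      rw [e1, e2, e3]
    omega

/-- At most two unsaturated stars besides the switching star. -/
theorem few (H : Loads M h T) (hN : ∑ i, M i ≤ 2 * Cap)
    (hbad : ∀ θ, ∃ c, Cap < F h θ c) {B lo : ℕ} (hB : ∀ i, M i ≤ B) (hcap : 5 * B ≤ Cap)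
    (hlo : ∀ i, lo ≤ M i) (hBlo : 2 * B ≤ 3 * lo)
    {θ : ι → Bool} {s : ι} {c₁ c₂ : ℕ} (hc : c₁ ≠ c₂) (hθ : Cap < F h θ c₁)
    (hθ' : Cap < F h (Function.update θ s (!θ s)) c₂)
    {z : ι → ℕ} (hz : ∀ i, i ≠ s → h i (θ i) c₁ + h i (θ i) c₂ + z i = M i)
    (hzs : ∑ i ∈ univ.erase s, z i + 4 ≤ M s)
    {J : Finset ι} (hJT : ∀ i ∈ J, ¬ T i c₁ c₂) (hsJ : s ∉ J) (hJ3 : J.card = 3) : False := by
  have hzB : ∑ i ∈ univ.erase s, z i ≤ B := by have := hB s; omega
  have k1 := keep H hN hbad hB hcap hc hθ hz hzB hJT hsJ hJ3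
  have hz' : ∀ i, i ≠ s → h i (Function.update θ s (!θ s) i) c₂ +
      h i (Function.update θ s (!θ s) i) c₁ + z i = M i := by
    intro i hi
    rw [Function.update_of_ne hi]
    have := hz i hi
    omega
  have k2 := keep H hN hbad hB hcap hc.symm hθ' hz' hzB
    (fun i hi hT => hJT i hi (H.symm i _ _ hT)) hsJ hJ3
  have key : F h (flipOn J θ) c₁ + F h (flipOn J (Function.update θ s (!θ s))) c₂ + ∑ i ∈ J, M i + 2
      ≤ ∑ i, M i + ∑ i ∈ univ.erase s, z i + M s := by
    have hpt : ∀ i, h i (flipOn J θ i) c₁ + h i (flipOn J (Function.update θ s (!θ s)) i) c₂ +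
        (if i ∈ J then M i else 0) + (if i = s then 2 else 0) ≤ M i +
        (if i ≠ s then z i else 0) + (if i = s then M i else 0) := by
      intro i
      by_cases his : i = s
      · subst his
        have h1 := H.small i (flipOn J θ i) c₁
        have h2 := H.small i (flipOn J (Function.update θ i (!θ i)) i) c₂
        simp only [hsJ, if_false, if_true, ne_eq, not_true_eq_false]
        omega
      · by_cases hi : i ∈ J
        · have hcr := H.cross i c₁ c₂ hc (hJT i hi)
          have hzi := hz i his
          simp only [flipOn, hi, his, if_true, if_false, Function.update_of_ne his, ne_eq,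
            not_false_eq_true]
          cases hb : θ i <;> simp only [hb, Bool.not_true, Bool.not_false] at hzi ⊢ <;> omega
        · have hzi := hz i his
          simp only [flipOn, hi, his, if_true, if_false, Function.update_of_ne his, ne_eq,
            not_false_eq_true]
          omega
    have hsum := sum_le_sum (s := univ) fun i _ => hpt i
    simp only [sum_add_distrib] at hsum
    have e1 : ∑ i, (if i ≠ s then z i else 0) = ∑ i ∈ univ.erase s, z i := by
      rw [← sum_filter]
      congr 1
      ext i
      simp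
    have e2 : ∑ i, (if i = s then 2 else 0) = 2 := by simp
    have e3 : ∑ i, (if i ∈ J then M i else 0) = ∑ i ∈ J, M i := by
      rw [← sum_filter]
      simp
    have e4 : ∑ i, (if i = s then M i else 0) = M s := by simp
    rw [e1, e2, e3, e4] at hsum
    unfold F
    omega
  have hJlo : 3 * lo ≤ ∑ i ∈ J, M i := by
    have := card_nsmul_le_sum J M lo fun i _ => hlo i
    rw [hJ3] at this
    simpa using this
  have := hB s
  omega

end Pool.Agent.Helper97_SE
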