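import Mathlib

/-!
# Equitable choosability of disjoint unions of stars
-/

namespace Pool.Agent.Helper97_SE

open Finset

/-- `G` is equitably `k`-choosable: for every assignment `L` of a set of exactly `k` colours to
each vertex there is a proper colouring `f` of `G` with `f v ∈ L v` for all `v` in which every
colour is used on at most `⌈|V(G)| / k⌉` vertices. -/
def EquitablyChoosable {V : Type} [Fintype V] (G : SimpleGraph V) (k : ℕ) : Prop :=
  ∀ L : V → Finset ℕ, (∀ v, (L v).card = k) →
    ∃ f : V → ℕ, (∀ u v, G.Adj u v → f u ≠ f v) ∧ (∀ v, f v ∈ L v) ∧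
      ∀ c, (univ.filter fun v => f v = c).card ≤ ⌈(Fintype.card V : ℚ) / k⌉₊

/-- The disjoint union of the stars `K_{1, m i}`: `⟨i, none⟩` is the centre of the star number `i`
and the `⟨i, some ℓ⟩`, `ℓ < m i`, are its leaves. -/
def starForest {ι : Type} (m : ι → ℕ) : SimpleGraph (Σ i : ι, Option (Fin (m i))) where
  Adj u v := u.1 = v.1 ∧ (u.2.isNone = true ↔ v.2.isSome = true)
  symm := ⟨by
    rintro ⟨i, u⟩ ⟨j, v⟩ ⟨h1, h2⟩
    refine ⟨h1.symm, ?_⟩
    cases u <;> cases v <;> simp_all⟩
  loopless := ⟨by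
    rintro ⟨i, u⟩ ⟨-, h2⟩
    cases u <;> simp_all⟩

/-- STARS EQUITABLE 2-CHOOSABILITY: the instance is a tuple `(m_1, …, m_n)` of natural numbers. -/
def StarsEquitable2Choosability (l : List ℕ) : Prop :=
  EquitablyChoosable (starForest fun i : Fin l.length => l.get i) 2

end Pool.Agent.Helper97_SE
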