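import Pool.Agent.Helper97_SE.Core

/-!
# Combinatorial core: the final state
-/

namespace Pool.Agent.Helper97_SE

open Finset

variable {ι : Type} [Fintype ι] [DecidableEq ι]
variable {M : ι → ℕ} {h : ι → Bool → ℕ → ℕ} {T : ι → ℕ → ℕ → Prop} {Cap : ℕ}

theorem final_aux (H : Loads M h T) (hN : ∑ i, M i ≤ 2 * Cap) {B : ℕ} (hB : ∀ i, M i ≤ B)
    (hcap : 5 * B ≤ Cap) {c₁ c₂ : ℕ} (hc : c₁ ≠ c₂) {J : Finset ι} (hJ3 : J.card ≤ 3)
    {q p : ι → ℕ} {b e : ι → Bool}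
    (hp : ∀ i, i ∉ J → h i (b i) c₁ = 1 ∧ h i (b i) c₂ = p i ∧ h i (!b i) c₁ = p i ∧
      h i (!b i) c₂ = 1)
    (hq : ∀ i, i ∉ J → p i + 1 + q i = M i) (hQ : ∑ i ∈ Jᶜ, q i ≤ B)
    (he : ∀ i, i ∈ J → 2 * (h i (e i) c₁ + h i (e i) c₂) ≤ M i)
    {σ : ι → ℤ} (hσ : ∀ i, σ i = 1 ∨ σ i = -1)
    (hstar : 2 * |∑ i ∈ Jᶜ, σ i * ((M i : ℤ) - 2)| ≤ ∑ i ∈ J, (M i : ℤ))
    (hΔ : (∑ i ∈ Jᶜ, σ i * ((p i : ℤ) - 1)) *
      (∑ i ∈ J, ((h i (e i) c₁ : ℤ) - h i (e i) c₂)) ≤ 0) :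
    ∃ θ, ∀ c, F h θ c ≤ Cap := by
  classical
  set θ : ι → Bool := fun i => if i ∈ J then e i else if σ i = 1 then !b i else b i with hθ
  set Δ := ∑ i ∈ Jᶜ, σ i * ((p i : ℤ) - 1) with hΔd
  set D := ∑ i ∈ J, ((h i (e i) c₁ : ℤ) - h i (e i) c₂) with hDd
  set E := ∑ i ∈ J, ((h i (e i) c₁ : ℤ) + h i (e i) c₂) with hEd
  set Q := ∑ i ∈ Jᶜ, (q i : ℤ) with hQd
  have hQB : Q ≤ B := by rw [hQd]; exact_mod_cast hQ
  have hsplit : ∀ f : ι → ℤ, ∑ i, f i = ∑ i ∈ J, f i + ∑ i ∈ Jᶜ, f i := fun f =>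
    (sum_add_sum_compl J f).symm
  -- loads outside J
  have hout1 : ∀ i ∈ Jᶜ, 2 * (h i (θ i) c₁ : ℤ) = ((M i : ℤ) - q i) + σ i * ((p i : ℤ) - 1) := by
    intro i hi
    rw [mem_compl] at hi
    obtain ⟨p1, p2, p3, p4⟩ := hp i hi
    have hqi := hq i hi
    simp only [hθ, hi, if_false]
    rcases hσ i with hs | hs
    · simp only [hs, if_true, p3]
      omega
    · have : ¬ ((-1 : ℤ) = 1) := by norm_num
      simp only [hs, this, if_false, p1]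
      omega
  have hout2 : ∀ i ∈ Jᶜ, 2 * (h i (θ i) c₂ : ℤ) = ((M i : ℤ) - q i) - σ i * ((p i : ℤ) - 1) := by
    intro i hi
    rw [mem_compl] at hi
    obtain ⟨p1, p2, p3, p4⟩ := hp i hi
    have hqi := hq i hi
    simp only [hθ, hi, if_false]
    rcases hσ i with hs | hs
    · simp only [hs, if_true, p4]
      omega
    · have : ¬ ((-1 : ℤ) = 1) := by norm_num
      simp only [hs, this, if_false, p2]
      omega
  have hin : ∀ i ∈ J, θ i = e i := by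
    intro i hi
    simp only [hθ, hi, if_true]
  have G1 : ∑ i ∈ Jᶜ, 2 * (h i (θ i) c₁ : ℤ) = (∑ i ∈ Jᶜ, (M i : ℤ) - Q) + Δ := by
    rw [sum_congr rfl hout1, sum_add_distrib, sum_sub_distrib]
  have G2 : ∑ i ∈ Jᶜ, 2 * (h i (θ i) c₂ : ℤ) = (∑ i ∈ Jᶜ, (M i : ℤ) - Q) - Δ := by
    rw [sum_congr rfl hout2, sum_sub_distrib, sum_sub_distrib]
  have G3 : ∑ i ∈ J, 2 * (h i (θ i) c₁ : ℤ) = E + D := by
    rw [hEd, hDd, ← sum_add_distrib]
    refine sum_congr rfl fun i hi => ?_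
    rw [hin i hi]; ring
  have G4 : ∑ i ∈ J, 2 * (h i (θ i) c₂ : ℤ) = E - D := by
    rw [hEd, hDd, ← sum_sub_distrib]
    refine sum_congr rfl fun i hi => ?_
    rw [hin i hi]; ring
  have F1 : 2 * (F h θ c₁ : ℤ) = (∑ i ∈ Jᶜ, (M i : ℤ) - Q) + Δ + (E + D) := by
    unfold F
    push_cast
    rw [hsplit, mul_add, mul_sum, mul_sum, G1, G3]
    ring
  have F2 : 2 * (F h θ c₂ : ℤ) = (∑ i ∈ Jᶜ, (M i : ℤ) - Q) - Δ + (E - D) := by
    unfold F
    push_cast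
    rw [hsplit, mul_add, mul_sum, mul_sum, G2, G4]
    ring
  have hNZ : ∑ i ∈ J, (M i : ℤ) + ∑ i ∈ Jᶜ, (M i : ℤ) ≤ 2 * Cap := by
    rw [← hsplit]; exact_mod_cast hN
  have hE2 : 2 * E ≤ ∑ i ∈ J, (M i : ℤ) := by
    rw [hEd, mul_sum]
    exact sum_le_sum fun i hi => by exact_mod_cast he i hi
  have hDE : |D| ≤ E := by
    rw [hDd, hEd]
    refine (abs_sum_le_sum_abs _ _).trans (sum_le_sum fun i _ => ?_)
    rw [abs_le]
    constructor <;> omega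
  have hΔb : |Δ| ≤ |∑ i ∈ Jᶜ, σ i * ((M i : ℤ) - 2)| + Q := by
    have e1 : Δ = ∑ i ∈ Jᶜ, σ i * ((M i : ℤ) - 2) - ∑ i ∈ Jᶜ, σ i * (q i : ℤ) := by
      rw [hΔd, ← sum_sub_distrib]
      refine sum_congr rfl fun i hi => ?_
      rw [mem_compl] at hi
      have : (M i : ℤ) = p i + 1 + q i := by exact_mod_cast (hq i hi).symm
      rw [this]; ring
    have e2 : |∑ i ∈ Jᶜ, σ i * (q i : ℤ)| ≤ Q := by
      rw [hQd]
      refine (abs_sum_le_sum_abs _ _).trans (sum_le_sum fun i _ => ?_)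
      rcases hσ i with hs | hs <;> rw [hs, abs_mul] <;> simp
    rw [e1]
    exact (abs_sub _ _).trans (by linarith)
  have hcomb : |Δ + D| ≤ |Δ| ∨ |Δ + D| ≤ |D| := by
    rcases mul_nonpos_iff.1 hΔ with ⟨a1, a2⟩ | ⟨a1, a2⟩
    · rw [abs_of_nonneg a1, abs_of_nonpos a2]
      rcases le_total 0 (Δ + D) with a3 | a3
      · left; rw [abs_of_nonneg a3]; linarith
      · right; rw [abs_of_nonpos a3]; linarith
    · rw [abs_of_nonpos a1, abs_of_nonneg a2]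
      rcases le_total 0 (Δ + D) with a3 | a3
      · right; rw [abs_of_nonneg a3]; linarith
      · left; rw [abs_of_nonpos a3]; linarith
  have habs : (Δ + D ≤ |Δ + D|) ∧ (-(Δ + D) ≤ |Δ + D|) := ⟨le_abs_self _, neg_le_abs _⟩
  have hQ0 : 0 ≤ Q := by rw [hQd]; exact sum_nonneg fun i _ => by positivity
  refine ⟨θ, fun c => ?_⟩
  by_cases h1 : c = c₁
  · subst h1
    rcases hcomb with hk | hk <;> omega
  by_cases h2 : c = c₂
  · subst h2
    rcases hcomb with hk | hk <;> omega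
  have key : F h θ c ≤ ∑ i ∈ Jᶜ, q i + 3 * B := by
    unfold F
    rw [← sum_add_sum_compl J, add_comm]
    refine add_le_add (sum_le_sum fun i hi => ?_) ?_
    · rw [mem_compl] at hi
      obtain ⟨p1, p2, p3, p4⟩ := hp i hi
      have hqi := hq i hi
      have ht := H.triple i (θ i) c₁ c₂ c hc (Ne.symm h1) (Ne.symm h2)
      have : h i (θ i) c₁ + h i (θ i) c₂ = p i + 1 := by
        simp only [hθ, hi, if_false]
        split_ifs
        · rw [p3, p4]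
        · rw [p1, p2]; omega
      omega
    · have : ∑ i ∈ J, h i (θ i) c ≤ J.card • B :=
        sum_le_card_nsmul _ _ _ fun i _ => by
          have := H.small i (θ i) c
          have := hB i
          omega
      rw [smul_eq_mul] at this
      exact this.trans (Nat.mul_le_mul_right _ hJ3)
  omega

theorem final (H : Loads M h T) (hN : ∑ i, M i ≤ 2 * Cap) {B : ℕ} (hB : ∀ i, M i ≤ B)
    (hcap : 5 * B ≤ Cap) {c₁ c₂ : ℕ} (hc : c₁ ≠ c₂) {J : Finset ι}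
    (hJT : ∀ i ∈ J, ¬ T i c₁ c₂) (hJ3 : J.card ≤ 3)
    {q p : ι → ℕ} {b : ι → Bool}
    (hp : ∀ i, i ∉ J → h i (b i) c₁ = 1 ∧ h i (b i) c₂ = p i ∧ h i (!b i) c₁ = p i ∧
      h i (!b i) c₂ = 1)
    (hq : ∀ i, i ∉ J → p i + 1 + q i = M i) (hQ : ∑ i ∈ Jᶜ, q i ≤ B)
    {σ : ι → ℤ} (hσ : ∀ i, σ i = 1 ∨ σ i = -1)
    (hstar : 2 * |∑ i ∈ Jᶜ, σ i * ((M i : ℤ) - 2)| ≤ ∑ i ∈ J, (M i : ℤ)) :
    ∃ θ, ∀ c, F h θ c ≤ Cap := by
  classical
  have hex : ∀ i, ∃ e : Bool, i ∈ J → 2 * (h i e c₁ + h i e c₂) ≤ M i := by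
    intro i
    by_cases hi : i ∈ J
    · have := H.cross i c₁ c₂ hc (hJT i hi)
      by_cases hh : 2 * (h i true c₁ + h i true c₂) ≤ M i
      · exact ⟨true, fun _ => hh⟩
      · exact ⟨false, fun _ => by omega⟩
    · exact ⟨true, fun h => absurd h hi⟩
  choose e he using hex
  by_cases hs : (∑ i ∈ Jᶜ, σ i * ((p i : ℤ) - 1)) *
      (∑ i ∈ J, ((h i (e i) c₁ : ℤ) - h i (e i) c₂)) ≤ 0
  · exact final_aux H hN hB hcap hc hJ3 hp hq hQ he hσ hstar hs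
  · refine final_aux H hN hB hcap hc hJ3 hp hq hQ he (σ := fun i => - σ i)
      (fun i => ?_) ?_ ?_
    · rcases hσ i with h1 | h1 <;> simp [h1]
    · simpa [neg_mul, sum_neg_distrib] using hstar
    · push Not at hs
      simp only [neg_mul, sum_neg_distrib]
      linarith

/-- The balancing condition. -/
def Star (M : ι → ℕ) : Prop := ∀ J : Finset ι, J.card ≤ 3 → ∃ σ : ι → ℤ,
  (∀ i, σ i = 1 ∨ σ i = -1) ∧
    2 * |∑ i ∈ Jᶜ, σ i * ((M i : ℤ) - 2)| ≤ ∑ i ∈ J, (M i : ℤ)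

theorem exists_good (H : Loads M h T) (hN : ∑ i, M i ≤ 2 * Cap) {B lo : ℕ} (hB : ∀ i, M i ≤ B)
    (hcap : 5 * B ≤ Cap) (hlo : ∀ i, lo ≤ M i) (hBlo : 2 * B ≤ 3 * lo) (hlo1 : 1 ≤ lo)
    (hstar : Star M) : ∃ θ, ∀ c, F h θ c ≤ Cap := by
  classical
  by_contra hcon
  have hbad : ∀ θ, ∃ c, Cap < F h θ c := by
    intro θ
    by_contra hθ
    push Not at hθ
    exact hcon ⟨θ, hθ⟩
  obtain ⟨θ, s, c₁, c₂, hc, hθ, hθ'⟩ := exists_switch H hN hbad
  -- the slack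
  set z : ι → ℕ := fun i => M i - (h i (θ i) c₁ + h i (θ i) c₂) with hzd
  have hz : ∀ i, i ≠ s → h i (θ i) c₁ + h i (θ i) c₂ + z i = M i := by
    intro i _
    have := H.pair i (θ i) c₁ c₂ hc
    simp only [hzd]
    omega
  have hsum : F h θ c₁ + F h (Function.update θ s (!θ s)) c₂ + ∑ i ∈ univ.erase s, z i + M s =
      ∑ i, M i + h s (θ s) c₁ + h s (!θ s) c₂ := by
    unfold F
    rw [← add_sum_erase univ (fun i => h i (θ i) c₁) (mem_univ s),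
      ← add_sum_erase univ (fun i => h i (Function.update θ s (!θ s) i) c₂) (mem_univ s),
      ← add_sum_erase univ M (mem_univ s)]
    have e1 : ∑ i ∈ univ.erase s, M i = ∑ i ∈ univ.erase s, h i (θ i) c₁ +
        ∑ i ∈ univ.erase s, h i (Function.update θ s (!θ s) i) c₂ + ∑ i ∈ univ.erase s, z i := by
      rw [← sum_add_distrib, ← sum_add_distrib]
      refine sum_congr rfl fun i hi => ?_
      have hi' := ne_of_mem_erase hi
      rw [Function.update_of_ne hi', hz i hi']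
    rw [e1]
    simp only [Function.update_self]
    omega
  have hs1 := H.small s (θ s) c₁
  have hs2 := H.small s (!θ s) c₂
  have hzs : ∑ i ∈ univ.erase s, z i + 4 ≤ M s := by omega
  set J : Finset ι := univ.filter fun i => ¬ T i c₁ c₂ with hJ
  have hJT : ∀ i ∈ J, ¬ T i c₁ c₂ := fun i hi => (mem_filter.1 hi).2
  have hJ2 : (J.erase s).card ≤ 2 := by
    by_contra h3
    push Not at h3
    obtain ⟨J0, hJ0, hcard⟩ := exists_subset_card_eq (n := 3) (s := J.erase s) (by omega)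
    exact few H hN hbad hB hcap hlo hBlo hc hθ hθ' hz hzs
      (fun i hi => hJT i (mem_of_mem_erase (hJ0 hi)))
      (fun hs => (ne_of_mem_erase (hJ0 hs)) rfl) hcard
  have hJ3 : J.card ≤ 3 := by
    have := pred_card_le_card_erase (s := J) (a := s)
    omega
  -- parameters of the saturated stars
  have hsat : ∀ i, ∃ pb : ℕ × Bool, i ∉ J → h i pb.2 c₁ = 1 ∧ h i pb.2 c₂ = pb.1 ∧
      h i (!pb.2) c₁ = pb.1 ∧ h i (!pb.2) c₂ = 1 := by
    intro i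
    by_cases hi : i ∈ J
    · exact ⟨(0, true), fun h => absurd hi h⟩
    · have hT : T i c₁ c₂ := by
        by_contra hT
        exact hi (mem_filter.2 ⟨mem_univ _, hT⟩)
      obtain ⟨p, b, h1⟩ := H.sat i c₁ c₂ hc hT
      exact ⟨(p, b), fun _ => h1⟩
  choose pb hpb using hsat
  set q : ι → ℕ := fun i => M i - ((pb i).1 + 1) with hqd
  have hq : ∀ i, i ∉ J → (pb i).1 + 1 + q i = M i := by
    intro i hi
    obtain ⟨h1, h2, -, -⟩ := hpb i hi
    have := H.pair i (pb i).2 c₁ c₂ hc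
    simp only [hqd]
    omega
  have hqz : ∀ i, i ∉ J → i ≠ s → q i = z i := by
    intro i hi his
    obtain ⟨h1, h2, h3, h4⟩ := hpb i hi
    have hzi := hz i his
    have hqi := hq i hi
    have : h i (θ i) c₁ + h i (θ i) c₂ = (pb i).1 + 1 := by
      rcases Bool.eq_or_eq_not (θ i) (pb i).2 with hb | hb
      · rw [hb, h1, h2, add_comm]
      · rw [hb, h3, h4]
    omega
  have hQ : ∑ i ∈ Jᶜ, q i ≤ B := by
    have hsub : ∑ i ∈ (Jᶜ).erase s, q i ≤ ∑ i ∈ univ.erase s, z i := by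
      calc ∑ i ∈ (Jᶜ).erase s, q i = ∑ i ∈ (Jᶜ).erase s, z i := by
            refine sum_congr rfl fun i hi => ?_
            exact hqz i (mem_compl.1 (mem_of_mem_erase hi)) (ne_of_mem_erase hi)
        _ ≤ _ := sum_le_sum_of_subset (erase_subset_erase _ (subset_univ _))
    have hBs := hB s
    by_cases hsJ : s ∈ J
    · have : (Jᶜ).erase s = Jᶜ := erase_eq_of_notMem (by simp [hsJ])
      rw [this] at hsub
      omega
    · have hsC : s ∈ Jᶜ := mem_compl.2 hsJ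
      rw [← add_sum_erase _ q hsC]
      obtain ⟨h1, h2, h3, h4⟩ := hpb s hsJ
      have hqs := hq s hsJ
      have hxy : (h s (θ s) c₁ = 1 ∧ h s (!θ s) c₂ = 1) ∨
          (h s (θ s) c₁ = (pb s).1 ∧ h s (!θ s) c₂ = (pb s).1) := by
        rcases Bool.eq_or_eq_not (θ s) (pb s).2 with hb | hb
        · left; rw [hb]; exact ⟨h1, h4⟩
        · right; rw [hb, Bool.not_not]; exact ⟨h3, h2⟩
      have hlos := hlo s
      rcases hxy with ⟨a1, a2⟩ | ⟨a1, a2⟩ <;> omega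
  obtain ⟨σ, hσ, hst⟩ := hstar J hJ3
  exact hcon (final H hN hB hcap hc hJT hJ3 (p := fun i => (pb i).1) (b := fun i => (pb i).2)
    hpb hq hQ hσ hst)

end Pool.Agent.Helper97_SE
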