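import Pool.Agent.Helper97_SE.Defs
import Pool.Agent.Helper97_SE.Final

/-!
# From centre colours to equitable colourings
-/

namespace Pool.Agent.Helper97_SE

open Finset

/-- Greedy completion of a partial colouring from lists of size two. -/
theorem greedy {V : Type} [Fintype V] [DecidableEq V] {Cap : ℕ} (hN : Fintype.card V ≤ 2 * Cap)
    {L : V → Finset ℕ} (hL : ∀ v, (L v).card = 2) :
    ∀ (n : ℕ) (S : Finset V) (f : V → ℕ), Sᶜ.card = n →
      (∀ c, (S.filter fun v => f v = c).card ≤ Cap) →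
      ∃ g : V → ℕ, (∀ v ∈ S, g v = f v) ∧ (∀ v ∉ S, g v ∈ L v) ∧
        ∀ c, (univ.filter fun v => g v = c).card ≤ Cap := by
  intro n
  induction n with
  | zero =>
    intro S f hS hf
    have hS' : S = univ := by
      rw [card_eq_zero] at hS
      simpa using hS
    subst hS'
    exact ⟨f, fun _ _ => rfl, fun v hv => absurd (mem_univ v) hv, hf⟩
  | succ n ih =>
    intro S f hS hf
    obtain ⟨v, hv⟩ : (Sᶜ).Nonempty := by
      rw [← card_pos]; omega
    rw [mem_compl] at hv
    obtain ⟨x, y, hxy, hLv⟩ := card_eq_two.1 (hL v)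
    have hcard : S.card + 1 ≤ 2 * Cap := by
      have : S.card + Sᶜ.card = Fintype.card V := card_add_card_compl S
      omega
    have hsum : (S.filter fun v => f v = x).card + (S.filter fun v => f v = y).card ≤ S.card := by
      rw [← card_union_of_disjoint]
      · exact card_le_card (union_subset (filter_subset _ _) (filter_subset _ _))
      · rw [disjoint_filter]
        intro w _ h1 h2
        exact hxy (h1 ▸ h2)
    have hex : ∃ t ∈ L v, (S.filter fun v => f v = t).card < Cap := by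
      by_cases h : (S.filter fun v => f v = x).card < Cap
      · exact ⟨x, by rw [hLv]; simp, h⟩
      · exact ⟨y, by rw [hLv]; simp, by omega⟩
    obtain ⟨t, ht, htc⟩ := hex
    have hS1 : ((insert v S)ᶜ).card = n := by
      have e1 := card_add_card_compl (insert v S)
      have e2 := card_add_card_compl S
      rw [card_insert_of_notMem hv] at e1
      omega
    obtain ⟨g, hg1, hg2, hg3⟩ := ih (insert v S) (Function.update f v t) hS1 (by
      intro c
      rw [filter_insert]
      have e : (S.filter fun w => Function.update f v t w = c) = S.filter fun w => f w = c := by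
        refine filter_congr fun w hw => ?_
        rw [Function.update_of_ne (by rintro rfl; exact hv hw)]
      rw [e, Function.update_self]
      split_ifs with htc'
      · subst htc'
        exact (card_insert_le _ _).trans htc
      · exact hf c)
    refine ⟨g, fun w hw => ?_, fun w hw => ?_, hg3⟩
    · rw [hg1 w (mem_insert_of_mem hw), Function.update_of_ne (by rintro rfl; exact hv hw)]
    · by_cases hwv : w = v
      · subst hwv
        rw [hg1 w (mem_insert_self _ _), Function.update_self]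
        exact ht
      · exact hg2 w (by simp [hwv, hw])

variable {ι : Type} [Fintype ι] [DecidableEq ι] {m : ι → ℕ}

/-- forced load of the colour `c` in star `i` if the centre has the colour `a` -/
def ld (L : (Σ i : ι, Option (Fin (m i))) → Finset ℕ) (i : ι) (a c : ℕ) : ℕ :=
  (if a = c then 1 else 0) + ∑ ℓ : Fin (m i), if L ⟨i, some ℓ⟩ = {a, c} then 1 else 0

theorem card_V : Fintype.card (Σ i : ι, Option (Fin (m i))) = ∑ i, (m i + 1) := by
  simp

theorem ceil_half (n : ℕ) : ⌈(n : ℚ) / (2 : ℕ)⌉₊ = (n + 1) / 2 := by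
  apply le_antisymm
  · rw [Nat.ceil_le, div_le_iff₀ (by norm_num)]
    have : n ≤ (n + 1) / 2 * 2 := by omega
    exact_mod_cast this
  · have h := Nat.le_ceil ((n : ℚ) / (2 : ℕ))
    rw [div_le_iff₀ (by norm_num)] at h
    have h' : n ≤ ⌈(n : ℚ) / (2 : ℕ)⌉₊ * 2 := by exact_mod_cast h
    omega

theorem complete {Cap : ℕ} (hN : ∑ i, (m i + 1) ≤ 2 * Cap)
    {L : (Σ i : ι, Option (Fin (m i))) → Finset ℕ} (hL : ∀ v, (L v).card = 2)
    {a : ι → ℕ} (ha : ∀ i, a i ∈ L ⟨i, none⟩) (hld : ∀ c, ∑ i, ld L i (a i) c ≤ Cap) :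
    ∃ f : (Σ i : ι, Option (Fin (m i))) → ℕ,
      (∀ u v, (starForest m).Adj u v → f u ≠ f v) ∧ (∀ v, f v ∈ L v) ∧
        ∀ c, (univ.filter fun v => f v = c).card ≤ Cap := by
  classical
  have hex : ∀ v : (Σ i : ι, Option (Fin (m i))), ∃ t, a v.1 ∈ L v → L v = {a v.1, t} := by
    intro v
    by_cases h : a v.1 ∈ L v
    · obtain ⟨x, y, hxy, hLv⟩ := card_eq_two.1 (hL v)
      rw [hLv] at h
      simp only [mem_insert, mem_singleton] at h
      rcases h with h | h
      · exact ⟨y, fun _ => by rw [hLv, h]⟩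
      · exact ⟨x, fun _ => by rw [hLv, h, pair_comm]⟩
    · exact ⟨0, fun h' => absurd h' h⟩
  choose t ht using hex
  set f0 : (Σ i : ι, Option (Fin (m i))) → ℕ := fun v => if v.2 = none then a v.1 else t v with hf0
  set S : Finset (Σ i : ι, Option (Fin (m i))) :=
    univ.filter fun v => v.2 = none ∨ a v.1 ∈ L v with hS
  have hcnt : ∀ c, (S.filter fun v => f0 v = c).card ≤ Cap := by
    intro c
    refine le_trans ?_ (hld c)
    rw [hS, filter_filter, card_filter, Fintype.sum_sigma]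
    refine sum_le_sum fun i _ => ?_
    rw [Fintype.sum_option]
    unfold ld
    refine add_le_add ?_ (sum_le_sum fun ℓ _ => ?_)
    · simp [hf0]
    · by_cases h : L ⟨i, some ℓ⟩ = {a i, c}
      · simp only [h, if_true]
        split_ifs <;> simp
      · have h' : ¬ ((⟨i, some ℓ⟩ : Σ i : ι, Option (Fin (m i))).2 = none ∨
            a (⟨i, some ℓ⟩ : Σ i : ι, Option (Fin (m i))).1 ∈ L ⟨i, some ℓ⟩) ∨
            ¬ f0 ⟨i, some ℓ⟩ = c := by
          by_contra hcon
          push Not at hcon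
          obtain ⟨h1, h2⟩ := hcon
          have h3 : a i ∈ L ⟨i, some ℓ⟩ := by simpa using h1
          have h4 := ht ⟨i, some ℓ⟩ h3
          simp only [hf0, reduceCtorEq, if_false] at h2
          rw [h2] at h4
          exact h h4
        rcases h' with h' | h'
        · simp only [h', false_and, if_false]; exact Nat.zero_le _
        · simp only [h', and_false, if_false]; exact Nat.zero_le _
  obtain ⟨g, hg1, hg2, hg3⟩ := greedy (by rw [card_V]; exact hN) hL _ S f0 rfl hcnt
  have hcen : ∀ i, g ⟨i, none⟩ = a i := by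
    intro i
    rw [hg1 _ (by simp [hS])]
    simp [hf0]
  have hleaf : ∀ i ℓ, g ⟨i, some ℓ⟩ ∈ L ⟨i, some ℓ⟩ ∧ g ⟨i, some ℓ⟩ ≠ a i := by
    intro i ℓ
    by_cases h : a i ∈ L ⟨i, some ℓ⟩
    · rw [hg1 ⟨i, some ℓ⟩ (by simp [hS, h])]
      have h4 := ht ⟨i, some ℓ⟩ h
      have h5 : f0 ⟨i, some ℓ⟩ = t ⟨i, some ℓ⟩ := by simp [hf0]
      rw [h5]
      constructor
      · rw [h4]; simp
      · intro he
        have h6 := hL ⟨i, some ℓ⟩
        rw [h4, he] at h6
        simp at h6
    · have h7 : g ⟨i, some ℓ⟩ ∈ L ⟨i, some ℓ⟩ := hg2 _ (by simp [hS, h])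
      exact ⟨h7, fun he => h (he ▸ h7)⟩
  refine ⟨g, ?_, ?_, hg3⟩
  · rintro ⟨i, u⟩ ⟨j, v⟩ ⟨h1, h2⟩
    simp only at h1
    subst h1
    cases u with
    | none =>
      cases v with
      | none => simp at h2
      | some ℓ => rw [hcen]; exact (hleaf i ℓ).2.symm
    | some ℓ =>
      cases v with
      | none => rw [hcen]; exact (hleaf i ℓ).2
      | some ℓ' => simp at h2
  · rintro ⟨i, u⟩
    cases u with
    | none => rw [hcen]; exact ha i
    | some ℓ => exact (hleaf i ℓ).1

theorem pair_fact1 {a c c' : ℕ} {s : Finset ℕ} (h1 : s = {a, c}) (h2 : s = {a, c'}) : c = c' := by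
  have hc : c ∈ s := by rw [h1]; simp
  have hc' : c' ∈ s := by rw [h2]; simp
  rw [h2] at hc
  rw [h1] at hc'
  simp only [mem_insert, mem_singleton] at hc hc'
  omega

theorem pair_fact2 {a b c : ℕ} {s : Finset ℕ} (h1 : s = {a, c}) (h2 : s = {b, c}) : a = b := by
  rw [pair_comm] at h1 h2
  exact pair_fact1 h1 h2

theorem pair_fact3 {a b c c' : ℕ} {s : Finset ℕ} (hab : a ≠ b)
    (h1 : s = {a, c}) (h2 : s = {b, c'}) : a = c' ∧ b = c := by
  have ha : a ∈ s := by rw [h1]; simp
  have hb : b ∈ s := by rw [h2]; simp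
  rw [h2] at ha
  rw [h1] at hb
  simp only [mem_insert, mem_singleton] at ha hb
  omega

theorem sum_ite_le (n : ℕ) (f : Fin n → ℕ) (hf : ∀ i, f i ≤ 1) : ∑ i, f i ≤ n := by
  have := sum_le_card_nsmul univ f 1 fun i _ => hf i
  simpa using this

/-- The forced loads have the abstract properties. -/
theorem loads (hm : ∀ i, 1 ≤ m i) {L : (Σ i : ι, Option (Fin (m i))) → Finset ℕ}
    (hL : ∀ v, (L v).card = 2) {cc : ι → Bool → ℕ} (hcc : ∀ i, cc i true ≠ cc i false)
    (hLc : ∀ i, L ⟨i, none⟩ = {cc i true, cc i false}) :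
    Loads (fun i => m i + 1) (fun i b c => ld L i (cc i b) c)
      (fun i c c' => L ⟨i, none⟩ = {c, c'}) where
  pair := by
    intro i b c c' hcc'
    unfold ld
    have h1 : (if cc i b = c then 1 else 0) + (if cc i b = c' then 1 else 0) ≤ 1 := by
      split_ifs <;> omega
    have h2 : ∑ ℓ : Fin (m i), (if L ⟨i, some ℓ⟩ = {cc i b, c} then 1 else 0) +
        ∑ ℓ : Fin (m i), (if L ⟨i, some ℓ⟩ = {cc i b, c'} then 1 else 0) ≤ m i := by
      rw [← sum_add_distrib]
      refine sum_ite_le _ _ fun ℓ => ?_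
      have f1 := @pair_fact1 (cc i b) c c' (L ⟨i, some ℓ⟩)
      split_ifs with a1 a2 <;> first | omega | exact absurd (f1 a1 a2) hcc'
    omega
  triple := by
    intro i b c c' c'' h12 h13 h23
    unfold ld
    have h1 : (if cc i b = c then 1 else 0) + (if cc i b = c' then 1 else 0) +
        (if cc i b = c'' then 1 else 0) ≤ 1 := by
      split_ifs <;> omega
    have h2 : ∑ ℓ : Fin (m i), (if L ⟨i, some ℓ⟩ = {cc i b, c} then 1 else 0) +
        ∑ ℓ : Fin (m i), (if L ⟨i, some ℓ⟩ = {cc i b, c'} then 1 else 0) +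
        ∑ ℓ : Fin (m i), (if L ⟨i, some ℓ⟩ = {cc i b, c''} then 1 else 0) ≤ m i := by
      rw [← sum_add_distrib, ← sum_add_distrib]
      refine sum_ite_le _ _ fun ℓ => ?_
      have f1 : L ⟨i, some ℓ⟩ = {cc i b, c} → L ⟨i, some ℓ⟩ = {cc i b, c'} → False :=
        fun e1 e2 => h12 (pair_fact1 e1 e2)
      have f2 : L ⟨i, some ℓ⟩ = {cc i b, c} → L ⟨i, some ℓ⟩ = {cc i b, c''} → False :=
        fun e1 e2 => h13 (pair_fact1 e1 e2)
      have f3 : L ⟨i, some ℓ⟩ = {cc i b, c'} → L ⟨i, some ℓ⟩ = {cc i b, c''} → False :=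
        fun e1 e2 => h23 (pair_fact1 e1 e2)
      split_ifs <;> simp_all
    omega
  swap := by
    intro i c
    unfold ld
    have h0 := hcc i
    have h1 : (if cc i true = c then 1 else 0) + (if cc i false = c then 1 else 0) ≤ 1 := by
      split_ifs <;> omega
    have h2 : ∑ ℓ : Fin (m i), (if L ⟨i, some ℓ⟩ = {cc i true, c} then 1 else 0) +
        ∑ ℓ : Fin (m i), (if L ⟨i, some ℓ⟩ = {cc i false, c} then 1 else 0) ≤ m i := by
      rw [← sum_add_distrib]
      refine sum_ite_le _ _ fun ℓ => ?_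
      have f1 := @pair_fact2 (cc i true) (cc i false) c (L ⟨i, some ℓ⟩)
      split_ifs with a1 a2 <;> first | omega | exact absurd (f1 a1 a2) h0
    omega
  cross := by
    intro i c c' hcc' hT
    have h0 := hcc i
    rw [hLc] at hT
    have hn1 : ¬ (cc i true = c ∧ cc i false = c') := by
      rintro ⟨e1, e2⟩; exact hT (by rw [e1, e2])
    have hn2 : ¬ (cc i true = c' ∧ cc i false = c) := by
      rintro ⟨e1, e2⟩; exact hT (by rw [e1, e2, pair_comm])
    unfold ld
    have h1 : (if cc i true = c then 1 else 0) + (if cc i true = c' then 1 else 0) +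
        ((if cc i false = c then 1 else 0) + (if cc i false = c' then 1 else 0)) ≤ 1 := by
      split_ifs <;> omega
    have h2 : (∑ ℓ : Fin (m i), (if L ⟨i, some ℓ⟩ = {cc i true, c} then 1 else 0) +
        ∑ ℓ : Fin (m i), (if L ⟨i, some ℓ⟩ = {cc i true, c'} then 1 else 0)) +
        (∑ ℓ : Fin (m i), (if L ⟨i, some ℓ⟩ = {cc i false, c} then 1 else 0) +
        ∑ ℓ : Fin (m i), (if L ⟨i, some ℓ⟩ = {cc i false, c'} then 1 else 0)) ≤ m i := by
      rw [← sum_add_distrib, ← sum_add_distrib, ← sum_add_distrib]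
      refine sum_ite_le _ _ fun ℓ => ?_
      have f1 : L ⟨i, some ℓ⟩ = {cc i true, c} → L ⟨i, some ℓ⟩ = {cc i true, c'} → False :=
        fun e1 e2 => hcc' (pair_fact1 e1 e2)
      have f2 : L ⟨i, some ℓ⟩ = {cc i true, c} → L ⟨i, some ℓ⟩ = {cc i false, c} → False :=
        fun e1 e2 => h0 (pair_fact2 e1 e2)
      have f3 : L ⟨i, some ℓ⟩ = {cc i true, c} → L ⟨i, some ℓ⟩ = {cc i false, c'} → False :=
        fun e1 e2 => hn2 (pair_fact3 h0 e1 e2)
      have f4 : L ⟨i, some ℓ⟩ = {cc i true, c'} → L ⟨i, some ℓ⟩ = {cc i false, c} → False :=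
        fun e1 e2 => hn1 (pair_fact3 h0 e1 e2)
      have f5 : L ⟨i, some ℓ⟩ = {cc i true, c'} → L ⟨i, some ℓ⟩ = {cc i false, c'} → False :=
        fun e1 e2 => h0 (pair_fact2 e1 e2)
      have f6 : L ⟨i, some ℓ⟩ = {cc i false, c} → L ⟨i, some ℓ⟩ = {cc i false, c'} → False :=
        fun e1 e2 => hcc' (pair_fact1 e1 e2)
      split_ifs <;> simp_all
    omega
  small := by
    intro i b c
    unfold ld
    have hmi := hm i
    have h2 : ∑ ℓ : Fin (m i), (if L ⟨i, some ℓ⟩ = {cc i b, c} then 1 else 0) ≤ m i :=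
      sum_ite_le _ _ fun ℓ => by split_ifs <;> omega
    by_cases hbc : cc i b = c
    · have h3 : ∑ ℓ : Fin (m i), (if L ⟨i, some ℓ⟩ = {cc i b, c} then 1 else 0) = 0 := by
        refine sum_eq_zero fun ℓ _ => ?_
        rw [if_neg]
        intro e
        have := hL ⟨i, some ℓ⟩
        rw [e, hbc] at this
        simp at this
      rw [h3, if_pos hbc]
      omega
    · rw [if_neg hbc]
      omega
  sat := by
    intro i c c' hcc' hT
    have h00 : ∀ x : ℕ, ∑ ℓ : Fin (m i), (if L ⟨i, some ℓ⟩ = {x, x} then 1 else 0) = 0 := by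
      intro x
      refine sum_eq_zero fun ℓ _ => ?_
      rw [if_neg]
      intro e
      have := hL ⟨i, some ℓ⟩
      rw [e] at this
      simp at this
    have hsym : ∑ ℓ : Fin (m i), (if L ⟨i, some ℓ⟩ = {c', c} then 1 else 0) =
        ∑ ℓ : Fin (m i), (if L ⟨i, some ℓ⟩ = {c, c'} then 1 else 0) := by
      rw [pair_comm]
    have hk : (cc i true = c ∧ cc i false = c') ∨ (cc i true = c' ∧ cc i false = c) := by
      have h0 := hcc i
      have ht : cc i true ∈ L ⟨i, none⟩ := by rw [hLc]; simp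
      have hf : cc i false ∈ L ⟨i, none⟩ := by rw [hLc]; simp
      rw [hT] at ht hf
      simp only [mem_insert, mem_singleton] at ht hf
      omega
    rcases hk with ⟨e1, e2⟩ | ⟨e1, e2⟩
    · refine ⟨∑ ℓ : Fin (m i), (if L ⟨i, some ℓ⟩ = {c, c'} then 1 else 0), true, ?_, ?_, ?_, ?_⟩
      · simp only [ld, e1, h00, if_true]
      · simp only [ld, e1, hcc', if_false, zero_add]
      · simp only [ld, Bool.not_true, e2, hcc'.symm, if_false, zero_add, hsym]
      · simp only [ld, Bool.not_true, e2, h00, if_true]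
    · refine ⟨∑ ℓ : Fin (m i), (if L ⟨i, some ℓ⟩ = {c, c'} then 1 else 0), false, ?_, ?_, ?_, ?_⟩
      · simp only [ld, e2, h00, if_true]
      · simp only [ld, e2, hcc', if_false, zero_add]
      · simp only [ld, Bool.not_false, e1, hcc'.symm, if_false, zero_add, hsym]
      · simp only [ld, Bool.not_false, e1, h00, if_true]
  symm := by
    intro i c c' hT
    rw [hT, pair_comm]

/-- The main sufficient condition for equitable 2-choosability. -/
theorem choosable {B lo : ℕ} (hm : ∀ i, 1 ≤ m i) (hB : ∀ i, m i + 1 ≤ B)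
    (hcap : 10 * B ≤ ∑ i, (m i + 1))
    (hlo : ∀ i, lo ≤ m i + 1) (hBlo : 2 * B ≤ 3 * lo) (hlo1 : 1 ≤ lo)
    (hstar : Star fun i => m i + 1) : EquitablyChoosable (starForest m) 2 := by
  intro L hL
  have hcap2 : ⌈(Fintype.card (Σ i : ι, Option (Fin (m i))) : ℚ) / (2 : ℕ)⌉₊ =
      (∑ i, (m i + 1) + 1) / 2 := by
    rw [card_V, ceil_half]
  rw [hcap2]
  have hex : ∀ i, ∃ xy : ℕ × ℕ, xy.1 ≠ xy.2 ∧ L ⟨i, none⟩ = {xy.1, xy.2} := by
    intro i
    obtain ⟨x, y, hxy, h⟩ := card_eq_two.1 (hL ⟨i, none⟩)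
    exact ⟨(x, y), hxy, h⟩
  choose xy hxy1 hxy2 using hex
  obtain ⟨θ, hθ⟩ := exists_good (Cap := (∑ i, (m i + 1) + 1) / 2)
    (loads hm hL (cc := fun i b => if b then (xy i).1 else (xy i).2)
    (fun i => by simpa using hxy1 i) (fun i => by simpa using hxy2 i))
    (by omega) hB (by omega) hlo hBlo hlo1 hstar
  refine complete (by omega) hL (a := fun i => if θ i then (xy i).1 else (xy i).2) (fun i => ?_) hθ
  rw [hxy2]
  cases θ i <;> simp

end Pool.Agent.Helper97_SE
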