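import Pool.Agent.Helper97_SE.Inst
import Pool.Agent.H671R2.SubsetSum

/-!
# STARS EQUITABLE 2-CHOOSABILITY is NP-hard: the reduction from SUBSET SUM
-/

namespace Pool.Agent.Helper97_SE

open Pool.Agent.NPC Pool.Agent.NPC.R671.SS

theorem items_poly : Poly Helper97_SE.items := by
  unfold Helper97_SE.items
  have h1 : Poly (fun x : List ℕ × ℕ => x.1.sum) := Poly.sum (Poly.fst Poly.id)
  have h2 : Poly (fun x : List ℕ × ℕ => 2 * x.2) :=
    Poly.mul (NPC.Poly.const 2) (Poly.snd Poly.id)
  exact Poly.append (Poly.fst Poly.id)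
    (Poly.cons (Poly.add (Poly.sub h1 h2) (Poly.sub h2 h1)) (NPC.Poly.const []))

theorem sizes_eq (y : List ℕ) : sizes y =
    ((y ++ (y.map (fun _ => 0) ++ [0, 0, 0, 0, 0, 0])).map
      (fun a => 4 * (2 * y.sum + 2) + 2 * a + 1)) ++
      (List.range 8).map (fun _ => 5 * (2 * y.sum + 2) + 1) := by
  unfold sizes unit
  rw [List.map_const', List.replicate_add]
  rfl

theorem sizes_poly : Poly sizes := by
  have e : sizes = fun y : List ℕ => ((y ++ (y.map (fun _ => 0) ++ [0, 0, 0, 0, 0, 0])).map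
      (fun a => 4 * (2 * y.sum + 2) + 2 * a + 1)) ++
      (List.range 8).map (fun _ => 5 * (2 * y.sum + 2) + 1) := funext sizes_eq
  rw [e]
  have hs : Poly (fun y : List ℕ => 2 * y.sum + 2) :=
    Poly.add (Poly.mul (NPC.Poly.const 2) (Poly.sum Poly.id)) (NPC.Poly.const 2)
  refine Poly.append ?_ ?_
  · refine NPC.Poly.map (l := fun y : List ℕ => y ++ (y.map (fun _ => 0) ++ [0, 0, 0, 0, 0, 0]))
      (F := fun (y : List ℕ) a => 4 * (2 * y.sum + 2) + 2 * a + 1) ?_ ?_
    · exact Poly.append Poly.id (Poly.append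
        (NPC.Poly.map (l := fun y : List ℕ => y) (F := fun _ _ => 0) Poly.id (NPC.Poly.const 0))
        (NPC.Poly.const _))
    · exact Poly.add (Poly.add (Poly.mul (NPC.Poly.const 4) (hs.comp (Poly.fst Poly.id)))
        (Poly.mul (NPC.Poly.const 2) (Poly.snd Poly.id))) (NPC.Poly.const 1)
  · exact NPC.Poly.map (l := fun _ : List ℕ => List.range 8)
      (F := fun (y : List ℕ) _ => 5 * (2 * y.sum + 2) + 1) (NPC.Poly.const _)
      (Poly.add (Poly.mul (NPC.Poly.const 5) (hs.comp (Poly.fst Poly.id))) (NPC.Poly.const 1))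

theorem hardI : HardI StarsEquitable2Choosability :=
  (HardPr.trans (Pr' := fun _ => True) hardPr_SubsetSum (sizes_poly.comp items_poly)
    (fun _ _ => trivial) (Q := StarsEquitable2Choosability)
    (fun x hx => correct x hx.2)).toHardI

/-- STARS EQUITABLE 2-CHOOSABILITY is NP-hard. -/
theorem npHard : NPHardP StarsEquitable2Choosability := hardI.toNPHardP

end Pool.Agent.Helper97_SE
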