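import Pool.Agent.Helper97_SE.Graph
import Pool.Agent.Helper97_SE.Bal

/-!
# The instance, and both directions of the reduction
-/

namespace Pool.Agent.Helper97_SE

open Finset

/-- `v` is a signed sum of the values of `f` on the list. -/
def SSum {α : Type} (f : α → ℤ) : List α → ℤ → Prop
  | [], v => v = 0
  | a :: l, v => SSum f l (v - f a) ∨ SSum f l (v + f a)

theorem ssum_iff {α : Type} (f : α → ℤ) (l : List α) (v : ℤ) : SSum f l v ↔
    ∃ σ : Fin l.length → ℤ, (∀ i, σ i = 1 ∨ σ i = -1) ∧ ∑ i, σ i * f (l.get i) = v := by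
  induction l generalizing v with
  | nil =>
    simp only [SSum]
    constructor
    · rintro rfl
      exact ⟨fun _ => 1, fun _ => Or.inl rfl, by simp⟩
    · rintro ⟨σ, -, h⟩
      rw [← h]
      exact Finset.sum_of_isEmpty (ι := Fin 0) _
  | cons a l ih =>
    simp only [SSum, ih]
    constructor
    · rintro (⟨σ, hσ, h⟩ | ⟨σ, hσ, h⟩)
      · refine ⟨Fin.cons 1 σ, fun i => ?_, ?_⟩
        · refine Fin.cases ?_ (fun j => ?_) i
          · left; rfl
          · exact hσ j
        · have := Fin.sum_univ_succ (n := l.length)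
            (fun i : Fin (l.length + 1) => (Fin.cons 1 σ : Fin (l.length + 1) → ℤ) i *
              f ((a :: l).get i))
          refine Eq.trans this ?_
          simp only [Fin.cons_zero, Fin.cons_succ, one_mul]
          have e : ∑ i : Fin l.length, σ i * f ((a :: l).get i.succ) = v - f a := h
          have e0 : (a :: l).get (0 : Fin (l.length + 1)) = a := rfl
          rw [e, e0]; ring
      · refine ⟨Fin.cons (-1) σ, fun i => ?_, ?_⟩
        · refine Fin.cases ?_ (fun j => ?_) i
          · right; rfl
          · exact hσ j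
        · have := Fin.sum_univ_succ (n := l.length)
            (fun i : Fin (l.length + 1) => (Fin.cons (-1) σ : Fin (l.length + 1) → ℤ) i *
              f ((a :: l).get i))
          refine Eq.trans this ?_
          simp only [Fin.cons_zero, Fin.cons_succ, neg_mul, one_mul]
          have e : ∑ i : Fin l.length, σ i * f ((a :: l).get i.succ) = v + f a := h
          have e0 : (a :: l).get (0 : Fin (l.length + 1)) = a := rfl
          rw [e, e0]; ring
    · rintro ⟨σ, hσ, h⟩
      have hs := Fin.sum_univ_succ (n := l.length)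
            (fun i : Fin (l.length + 1) => (σ : Fin (l.length + 1) → ℤ) i *
              f ((a :: l).get i))
      have h' : σ (0 : Fin (l.length + 1)) * f a +
          ∑ i : Fin l.length, σ i.succ * f (l.get i) = v := hs.symm.trans h
      rcases hσ (0 : Fin (l.length + 1)) with h0 | h0
      · left
        refine ⟨fun i => σ i.succ, fun i => hσ _, ?_⟩
        rw [h0] at h'
        linarith
      · right
        refine ⟨fun i => σ i.succ, fun i => hσ _, ?_⟩
        rw [h0] at h'
        linarith

theorem ssum_append {α : Type} (f : α → ℤ) (l l' : List α) (v : ℤ) :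
    SSum f (l ++ l') v ↔ ∃ u, SSum f l u ∧ SSum f l' (v - u) := by
  induction l generalizing v with
  | nil => simp [SSum]
  | cons a l ih =>
    simp only [List.cons_append, SSum, ih]
    constructor
    · rintro (⟨u, h1, h2⟩ | ⟨u, h1, h2⟩)
      · exact ⟨u + f a, Or.inl (by simpa using h1), by convert h2 using 1; ring⟩
      · exact ⟨u - f a, Or.inr (by simpa using h1), by convert h2 using 1; ring⟩
    · rintro ⟨u, h1 | h1, h2⟩
      · exact Or.inl ⟨u - f a, h1, by convert h2 using 1; ring⟩
      · exact Or.inr ⟨u + f a, h1, by convert h2 using 1; ring⟩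

theorem ssum_map {α β : Type} (f : β → ℤ) (g : α → β) (l : List α) (v : ℤ) :
    SSum f (l.map g) v ↔ SSum (fun a => f (g a)) l v := by
  induction l generalizing v with
  | nil => simp [SSum]
  | cons a l ih => simp only [List.map_cons, SSum, ih]

theorem ssum_neg {α : Type} (f : α → ℤ) (l : List α) (v : ℤ) (h : SSum f l v) :
    SSum f l (-v) := by
  induction l generalizing v with
  | nil => simp only [SSum] at h ⊢; omega
  | cons a l ih =>
    simp only [SSum] at h ⊢
    rcases h with h | h
    · right
      have := ih _ h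
      convert this using 1; ring
    · left
      have := ih _ h
      convert this using 1; ring

/-- decomposition of a signed sum -/
theorem ssum_split {α : Type} (f g : α → ℤ) (A B : ℤ) (l : List α) (v : ℤ)
    (h : SSum (fun a => A * f a + B * g a) l v) :
    ∃ Z Y, SSum f l Z ∧ SSum g l Y ∧ v = A * Z + B * Y := by
  induction l generalizing v with
  | nil =>
    simp only [SSum] at h
    exact ⟨0, 0, rfl, rfl, by rw [h]; ring⟩
  | cons a l ih =>
    simp only [SSum] at h
    rcases h with h | h
    · obtain ⟨Z, Y, h1, h2, h3⟩ := ih _ h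
      exact ⟨Z + f a, Y + g a, Or.inl (by simpa using h1), Or.inl (by simpa using h2), by
        linear_combination h3⟩
    · obtain ⟨Z, Y, h1, h2, h3⟩ := ih _ h
      exact ⟨Z - f a, Y - g a, Or.inr (by simpa using h1), Or.inr (by simpa using h2), by
        linear_combination h3⟩

/-- conversely, with a companion list -/
theorem ssum_join {α : Type} (g : α → ℤ) (A B : ℤ) (l : List α) (Y : ℤ)
    (h : SSum g l Y) :
    ∃ Z, SSum (fun a => A + B * g a) l (A * Z + B * Y) ∧
      SSum (fun _ : α => A) l (-(A * Z)) := by
  induction l generalizing Y with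
  | nil =>
    simp only [SSum] at h
    exact ⟨0, by simp [SSum, h], by simp [SSum]⟩
  | cons a l ih =>
    simp only [SSum] at h
    rcases h with h | h
    · obtain ⟨Z, h1, h2⟩ := ih _ h
      exact ⟨Z + 1, Or.inl (by convert h1 using 1; ring), Or.inr (by convert h2 using 1; ring)⟩
    · obtain ⟨Z, h1, h2⟩ := ih _ h
      exact ⟨Z - 1, Or.inr (by convert h1 using 1; ring), Or.inl (by convert h2 using 1; ring)⟩

theorem ssum_abs_le {α : Type} (f : α → ℤ) (hf : ∀ a, 0 ≤ f a) (l : List α) (v : ℤ)
    (h : SSum f l v) : |v| ≤ (l.map f).sum := by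
  induction l generalizing v with
  | nil => simp only [SSum] at h; simp [h]
  | cons a l ih =>
    simp only [SSum] at h
    have ha := hf a
    simp only [List.map_cons, List.sum_cons]
    rcases h with h | h
    · have := ih _ h
      rw [abs_le] at this ⊢
      constructor <;> linarith [this.1, this.2]
    · have := ih _ h
      rw [abs_le] at this ⊢
      constructor <;> linarith [this.1, this.2]

theorem ssum_zero_weights {α : Type} (f : α → ℤ) (l : List α) (hf : ∀ a ∈ l, f a = 0) (v : ℤ)
    (h : SSum f l v) : v = 0 := by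
  induction l generalizing v with
  | nil => exact h
  | cons a l ih =>
    simp only [SSum] at h
    have ha := hf a (by simp)
    rcases h with h | h
    · have := ih (fun b hb => hf b (by simp [hb])) _ h
      omega
    · have := ih (fun b hb => hf b (by simp [hb])) _ h
      omega

/-- signed sums and subset sums -/
theorem ssum_sublist (l : List ℕ) (v : ℤ) : SSum (fun a : ℕ => (a : ℤ)) l v ↔
    ∃ s : List ℕ, s.Sublist l ∧ 2 * (s.sum : ℤ) - l.sum = v := by
  induction l generalizing v with
  | nil =>
    simp only [SSum, List.sublist_nil]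
    constructor
    · rintro rfl; exact ⟨[], rfl, by simp⟩
    · rintro ⟨s, rfl, h⟩; simpa using h.symm
  | cons a l ih =>
    simp only [SSum, ih]
    constructor
    · rintro (⟨s, hs, h⟩ | ⟨s, hs, h⟩)
      · exact ⟨a :: s, hs.cons_cons a, by
        simp only [List.sum_cons, Nat.cast_add]; linarith⟩
      · exact ⟨s, hs.cons a, by
        simp only [List.sum_cons, Nat.cast_add]; linarith⟩
    · rintro ⟨s, hs, h⟩
      rw [List.sublist_cons_iff] at hs
      rcases hs with hs | ⟨r, rfl, hr⟩
      · right
        refine ⟨s, hs, ?_⟩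
        simp only [List.sum_cons, Nat.cast_add] at h
        linarith
      · left
        refine ⟨r, hr, ?_⟩
        simp only [List.sum_cons, Nat.cast_add] at h
        linarith

/-! ### The instance -/

/-- numbers to be split into two parts of equal sum -/
def items (x : List ℕ × ℕ) : List ℕ := x.1 ++ [(x.1.sum - 2 * x.2) + (2 * x.2 - x.1.sum)]

theorem items_iff (x : List ℕ × ℕ) (hx : x.2 < x.1.sum) :
    SSum (fun a : ℕ => (a : ℤ)) (items x) 0 ↔ ∃ s : List ℕ, s.Sublist x.1 ∧ s.sum = x.2 := by
  unfold items
  rw [ssum_append]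
  constructor
  · rintro ⟨u, h1, h2⟩
    simp only [SSum] at h2
    rw [ssum_sublist] at h1
    obtain ⟨s, hs, hsu⟩ := h1
    have hc : (s.sum : ℤ) = x.2 ∨ (s.sum : ℤ) = x.1.sum - x.2 := by omega
    rcases hc with hc | hc
    · exact ⟨s, hs, by exact_mod_cast hc⟩
    · -- use the complement, through the negated signed sum
      have h3 : SSum (fun a : ℕ => (a : ℤ)) x.1 (2 * x.2 - x.1.sum) := by
        have := ssum_neg _ _ _ ((ssum_sublist x.1 (2 * (s.sum : ℤ) - x.1.sum)).2 ⟨s, hs, rfl⟩)
        convert this using 1
        rw [hc]; ring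
      obtain ⟨s', hs', h4⟩ := (ssum_sublist _ _).1 h3
      exact ⟨s', hs', by omega⟩
  · rintro ⟨s, hs, hsum⟩
    refine ⟨2 * (s.sum : ℤ) - x.1.sum, (ssum_sublist _ _).2 ⟨s, hs, rfl⟩, ?_⟩
    simp only [SSum]
    omega

/-- the unit -/
def unit (y : List ℕ) : ℕ := 2 * y.sum + 2

/-- the sizes of the stars -/
def sizes (y : List ℕ) : List ℕ :=
  (y ++ List.replicate (y.length + 6) 0).map (fun a => 4 * unit y + 2 * a + 1) ++
    List.replicate 8 (5 * unit y + 1)

/-- the weight of a size -/
def wt (a : ℕ) : ℤ := (a : ℤ) - 1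

theorem le_sum_of_mem' {y : List ℕ} {a : ℕ} (h : a ∈ y) : a ≤ y.sum := List.le_sum_of_mem h

theorem mem_sizes {y : List ℕ} {a : ℕ} (h : a ∈ sizes y) :
    4 * unit y + 1 ≤ a ∧ a ≤ 5 * unit y + 1 := by
  unfold sizes at h
  rw [List.mem_append] at h
  rcases h with h | h
  · rw [List.mem_map] at h
    obtain ⟨b, hb, rfl⟩ := h
    rw [List.mem_append] at hb
    rcases hb with hb | hb
    · have := le_sum_of_mem' hb
      unfold unit
      omega
    · rw [List.mem_replicate] at hb
      omega
  · rw [List.mem_replicate] at h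
    omega

theorem sizes_length (y : List ℕ) : (sizes y).length = 2 * (y.length + 7) := by
  simp [sizes]; omega

theorem ssum_replicate_even {α : Type} (f : α → ℤ) (a : α) (n : ℕ) :
    SSum f (List.replicate (2 * n) a) 0 := by
  induction n with
  | zero => simp [SSum]
  | succ n ih =>
    have : 2 * (n + 1) = 2 * n + 1 + 1 := by ring
    rw [this, List.replicate_succ, List.replicate_succ]
    simp only [SSum]
    left; right
    convert ih using 1; ring

theorem sizes_pos {y : List ℕ} (h : SSum (fun a : ℕ => (a : ℤ)) y 0) :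
    SSum wt (sizes y) 0 := by
  unfold sizes
  rw [ssum_append]
  refine ⟨0, ?_, ?_⟩
  · rw [ssum_map, ssum_append]
    obtain ⟨Z, h1, h2⟩ := ssum_join (fun a : ℕ => (a : ℤ)) (4 * unit y) 2 y 0 h
    refine ⟨4 * unit y * Z, ?_, ?_⟩
    · convert h1 using 1
      · funext a; simp only [wt]; push_cast; ring
      · ring
    · rw [List.replicate_add, ssum_append]
      refine ⟨-(4 * unit y * Z), ?_, ?_⟩
      · have e : List.replicate y.length 0 = y.map (fun _ => 0) := by
          rw [List.map_const']
        rw [e, ssum_map]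
        convert h2 using 1
        funext a; simp only [wt]; push_cast; ring
      · have := ssum_replicate_even (fun a => wt (4 * unit y + 2 * a + 1)) 0 3
        convert this using 1; ring
  · have := ssum_replicate_even wt (5 * unit y + 1) 4
    rw [sub_zero]; exact this

theorem sizes_neg {y : List ℕ} {v : ℤ} (hv : |v| ≤ 1) (h : SSum wt (sizes y) v) :
    SSum (fun a : ℕ => (a : ℤ)) y 0 := by
  unfold sizes at h
  rw [ssum_append] at h
  obtain ⟨u, h1, h2⟩ := h
  rw [ssum_map] at h1
  have h1' : SSum (fun a : ℕ => (4 * unit y : ℤ) * (1 : ℤ) + 2 * (a : ℤ))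
      (y ++ List.replicate (y.length + 6) 0) u := by
    convert h1 using 1
    funext a; simp only [wt]; push_cast; ring
  obtain ⟨Z, Y, h3, h4, h5⟩ := ssum_split (fun _ : ℕ => (1 : ℤ)) (fun a : ℕ => (a : ℤ)) _ _ _ _ h1'
  have h2' : SSum (fun a : ℕ => (5 * unit y : ℤ) * (1 : ℤ) + 0 * (a : ℤ))
      (List.replicate 8 (5 * unit y + 1)) (v - u) := by
    have e : List.replicate 8 (5 * unit y + 1) =
      (List.replicate 8 (5 * unit y + 1)).map (fun _ => 5 * unit y + 1) := by simp
    rw [e, ssum_map] at h2
    convert h2 using 1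
    funext a; simp only [wt]; push_cast; ring
  obtain ⟨Z', Y', h6, h7, h8⟩ := ssum_split (fun _ : ℕ => (1 : ℤ)) (fun a : ℕ => (a : ℤ)) _ _ _ _ h2'
  have hY : SSum (fun a : ℕ => (a : ℤ)) y Y := by
    rw [ssum_append] at h4
    obtain ⟨Y1, g1, g2⟩ := h4
    have := ssum_zero_weights _ _ (fun a ha => by
      rw [List.mem_replicate] at ha
      simp [ha.2]) _ g2
    have : Y1 = Y := by omega
    rw [← this]; exact g1
  have hYb := ssum_abs_le _ (fun a => by positivity) _ _ hY
  have hmap : (y.map fun a : ℕ => (a : ℤ)).sum = (y.sum : ℤ) := by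
    rw [Nat.cast_list_sum]
  rw [hmap] at hYb
  have hU : (unit y : ℤ) = 2 * y.sum + 2 := by simp [unit]
  have htot : v = (unit y : ℤ) * (4 * Z + 5 * Z') + 2 * Y := by linear_combination h5 + h8
  rw [abs_le] at hv hYb
  have hW : 4 * Z + 5 * Z' = 0 := by
    by_contra hne
    rcases lt_or_gt_of_ne hne with hlt | hgt
    · have : 4 * Z + 5 * Z' ≤ -1 := by omega
      have : (unit y : ℤ) * (4 * Z + 5 * Z') ≤ (unit y : ℤ) * (-1) :=
        mul_le_mul_of_nonneg_left this (by omega)
      omega
    · have : 1 ≤ 4 * Z + 5 * Z' := by omega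
      have : (unit y : ℤ) * 1 ≤ (unit y : ℤ) * (4 * Z + 5 * Z') :=
        mul_le_mul_of_nonneg_left this (by omega)
      omega
  rw [hW] at htot
  have : Y = 0 := by omega
  rw [← this]; exact hY

theorem count_fin (l : List ℕ) (a : ℕ) :
    (univ.filter fun i : Fin l.length => l.get i = a).card = l.count a :=
  Fin.card_filter_univ_eq_vector_get_eq_count a (⟨l, rfl⟩ : List.Vector ℕ l.length)

/-- If the items can be split evenly, the stars are equitably 2-choosable. -/
theorem choosable_sizes {y : List ℕ} (h : SSum (fun a : ℕ => (a : ℤ)) y 0) :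
    StarsEquitable2Choosability (sizes y) := by
  unfold StarsEquitable2Choosability
  have hmem : ∀ i : Fin (sizes y).length, 4 * unit y + 1 ≤ (sizes y).get i ∧
      (sizes y).get i ≤ 5 * unit y + 1 := fun i => mem_sizes (List.get_mem _ _)
  have hU : 2 ≤ unit y := by unfold unit; omega
  refine choosable (B := 5 * unit y + 2) (lo := 4 * unit y + 2) (fun i => by
    have := hmem i; omega) (fun i => by have := hmem i; omega) ?_ (fun i => by
    have := hmem i; omega) (by omega) (by omega) ?_
  · have h1 : ((sizes y).length : ℕ) * (4 * unit y + 2) ≤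
        ∑ i : Fin (sizes y).length, ((sizes y).get i + 1) := by
      have := card_nsmul_le_sum (univ : Finset (Fin (sizes y).length))
        (fun i => (sizes y).get i + 1) (4 * unit y + 2) fun i _ => by
          have := hmem i
          omega
      simpa using this
    refine le_trans ?_ h1
    have : 14 * (4 * unit y + 2) ≤ (sizes y).length * (4 * unit y + 2) :=
      Nat.mul_le_mul_right _ (by rw [sizes_length]; omega)
    omega
  · refine star_of (U := unit y) (fun i => ?_) ?_ ?_ ?_ ?_
    · have := hmem i
      omega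
    · rw [Fintype.card_fin, sizes_length]
      exact ⟨y.length + 7, by ring⟩
    · have e : (univ.filter fun i : Fin (sizes y).length =>
          (sizes y).get i + 1 = 4 * unit y + 2) =
          univ.filter fun i : Fin (sizes y).length => (sizes y).get i = 4 * unit y + 1 :=
        filter_congr fun i _ => by omega
      rw [e, count_fin]
      unfold sizes
      rw [List.count_append, List.map_append, List.count_append, List.map_replicate]
      have : List.count (4 * unit y + 1)
          (List.replicate (y.length + 6) (4 * unit y + 2 * 0 + 1)) = y.length + 6 := by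
        simp
      omega
    · have e : (univ.filter fun i : Fin (sizes y).length =>
          (sizes y).get i + 1 = 5 * unit y + 2) =
          univ.filter fun i : Fin (sizes y).length => (sizes y).get i = 5 * unit y + 1 :=
        filter_congr fun i _ => by omega
      rw [e, count_fin]
      unfold sizes
      rw [List.count_append]
      have : List.count (5 * unit y + 1) (List.replicate 8 (5 * unit y + 1)) = 8 := by
        simp
      omega
    · have h2 := (ssum_iff wt (sizes y) 0).1 (sizes_pos h)
      obtain ⟨σ, hσ, hs⟩ := h2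
      refine ⟨σ, hσ, ?_⟩
      rw [← hs]
      refine sum_congr rfl fun i _ => ?_
      simp only [wt]
      push_cast
      ring

/-- If a union of stars is equitably 2-choosable, the weights have a signed sum of absolute value
at most one. -/
theorem signs_of_choosable {l : List ℕ} (h : StarsEquitable2Choosability l) :
    ∃ v : ℤ, |v| ≤ 1 ∧ SSum wt l v := by
  classical
  obtain ⟨f, hf1, hf2, hf3⟩ := h (fun _ => {0, 1}) (fun _ => by simp)
  set a : Fin l.length → ℕ := fun i => f ⟨i, none⟩ with ha
  have ha01 : ∀ i, a i = 0 ∨ a i = 1 := fun i => by simpa using hf2 ⟨i, none⟩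
  have hleaf : ∀ i ℓ, f ⟨i, some ℓ⟩ = 1 - a i := by
    intro i ℓ
    have h1 := hf1 ⟨i, none⟩ ⟨i, some ℓ⟩ ⟨rfl, by simp⟩
    have h2 : f ⟨i, some ℓ⟩ = 0 ∨ f ⟨i, some ℓ⟩ = 1 := by simpa using hf2 ⟨i, some ℓ⟩
    have h3 := ha01 i
    have h4 : f ⟨i, none⟩ = a i := rfl
    omega
  have hcount : ∀ c, (univ.filter fun v => f v = c).card =
      ∑ i : Fin l.length, ((if a i = c then 1 else 0) + (if 1 - a i = c then l.get i else 0)) := by
    intro c
    rw [card_filter, Fintype.sum_sigma]
    refine sum_congr rfl fun i _ => ?_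
    rw [Fintype.sum_option]
    congr 1
    rw [sum_congr rfl (g := fun _ => if 1 - a i = c then 1 else 0) fun ℓ _ => by rw [hleaf i ℓ]]
    simp only [sum_const, card_univ, Fintype.card_fin, smul_eq_mul]
    split_ifs <;> simp
  have hc0 := hf3 0
  have hc1 := hf3 1
  rw [card_V, ceil_half, hcount] at hc0 hc1
  set σ : Fin l.length → ℤ := fun i => if a i = 0 then 1 else -1 with hσ
  refine ⟨∑ i, σ i * wt (l.get i), ?_, (ssum_iff _ _ _).2 ⟨σ, fun i => ?_, rfl⟩⟩
  · have e0 : (∑ i : Fin l.length, ((if a i = 0 then 1 else 0) +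
        (if 1 - a i = 0 then l.get i else 0)) : ℕ) + ∑ i : Fin l.length, ((if a i = 1 then 1 else 0)
        + (if 1 - a i = 1 then l.get i else 0)) = ∑ i : Fin l.length, (l.get i + 1) := by
      rw [← sum_add_distrib]
      refine sum_congr rfl fun i _ => ?_
      rcases ha01 i with h | h <;> simp [h] <;> omega
    have e1 : ((∑ i : Fin l.length, ((if a i = 1 then 1 else 0)
        + (if 1 - a i = 1 then l.get i else 0)) : ℕ) : ℤ) -
        ((∑ i : Fin l.length, ((if a i = 0 then 1 else 0) +
        (if 1 - a i = 0 then l.get i else 0)) : ℕ) : ℤ) = ∑ i, σ i * wt (l.get i) := by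
      push_cast
      rw [← sum_sub_distrib]
      refine sum_congr rfl fun i _ => ?_
      rcases ha01 i with h | h <;> simp [h, hσ, wt]
    rw [← e1, abs_le]
    omega
  · simp only [hσ]
    split_ifs <;> simp

/-- Correctness of the reduction. -/
theorem correct (x : List ℕ × ℕ) (hx : x.2 < x.1.sum) :
    (∃ s : List ℕ, s.Sublist x.1 ∧ s.sum = x.2) ↔
      StarsEquitable2Choosability (sizes (items x)) := by
  rw [← items_iff x hx]
  constructor
  · exact choosable_sizes
  · intro h
    obtain ⟨v, hv, hs⟩ := signs_of_choosable h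
    exact sizes_neg hv hs

end Pool.Agent.Helper97_SE
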